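import Pool.Agent.Helper19.HV.StC

/-!
# Project HV, module E1: duality argument in degree one
-/

set_option autoImplicit false

open scoped TensorProduct

namespace Pool.Agent.Helper19.HV

noncomputable section

open PL

/-- A functional on `V (RatFunc F)` which vanishes on the constants and on all `E a` is zero. -/
private theorem e1_zero {F : Type} [Field F] {cV : V F →ₗ[ℚ] V (RatFunc F)}
    {lc : V (RatFunc F) →ₗ[ℚ] V F} {od : V (RatFunc F) →ₗ[ℚ] (F →₀ ℚ)} (hs : Spl cV lc od)
    (L : V (RatFunc F) →ₗ[ℚ] ℚ) (h1 : ∀ u : F, L (lg (RatFunc.C u)) = 0)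
    (h2 : ∀ a : F, L (E a) = 0) (k : V (RatFunc F)) : L k = 0 := by
  have h3 : ∀ v : V F, L (cV v) = 0 := by
    intro v
    have hv : v ∈ Submodule.span ℚ (Set.range (lg : F → V F)) := by
      rw [span_lg]; exact Submodule.mem_top
    induction hv using Submodule.span_induction with
    | mem x hx =>
      obtain ⟨u, rfl⟩ := hx
      rw [hs.cV_lg]
      exact h1 u
    | zero => rw [map_zero, map_zero]
    | add x y _ _ hx hy => rw [map_add, map_add, hx, hy, add_zero]
    | smul q x _ hx => rw [map_smul, map_smul, hx, smul_zero]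
  rw [hs.dec k, map_add, h3, zero_add, Finsupp.linearCombination_apply, Finsupp.sum, map_sum]
  apply Finset.sum_eq_zero
  intro a _
  rw [map_smul, h2, smul_zero]

theorem mE1 : sALT → sE1 := by
  intro hALT F _ cV lc od hs hY4 d c m hd hc hm w
  -- the subspace
  set S : Submodule ℚ (Γ (RatFunc F) 1 3) := II c m 1 3 ⊔ LinearMap.range (d 1 2) with hS
  have hmem : w ∈ S := by
    by_contra hw
    obtain ⟨f, hf1, hf2⟩ := Submodule.exists_le_ker_of_notMem hw
    have fc : ∀ z, f (c 1 3 z) = 0 := fun z =>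
      hf2 (Submodule.mem_sup_left (Submodule.mem_sup_left ⟨z, rfl⟩))
    have fm : ∀ a z, f (m a 1 2 z) = 0 := fun a z =>
      hf2 (Submodule.mem_sup_left (Submodule.mem_sup_right
        (Submodule.mem_iSup_of_mem a ⟨z, rfl⟩)))
    have fd : ∀ z, f (d 1 2 z) = 0 := fun z =>
      hf2 (Submodule.mem_sup_right ⟨z, rfl⟩)
    let g : W (RatFunc F) 4 →ₗ[ℚ] ℚ := f
    let A : V (RatFunc F) [⋀^Fin 4]→ₗ[ℚ] ℚ := g.compAlternatingMap (pr (RatFunc F) 4)
    obtain ⟨χ, hχ, hχA⟩ := (hALT (V (RatFunc F)) ℚ).2.2.2.2.2 A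
    have hA : ∀ v, A v = f (pr (RatFunc F) 4 v) := fun v => rfl
    have hk : ∀ (a b e : F) k,
        χ (lg (RatFunc.C a)) (lg (RatFunc.C b)) (lg (RatFunc.C e)) k = 0 := by
      intro a b e
      apply e1_zero hs
      · intro u
        rw [hχA, hA]
        have h := hc.one 3 ![a, b, e, u]
        have e1 : (fun i : Fin 4 => lg (RatFunc.C (![a, b, e, u] i))) =
            ![lg (RatFunc.C a), lg (RatFunc.C b), lg (RatFunc.C e), lg (RatFunc.C u)] := by
          funext i
          fin_cases i <;> rfl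
        rw [← e1, ← h]
        exact fc _
      · intro p
        rw [hχA, hA]
        have h := hm.one p 2 ![a, b, e]
        have e1 : (Fin.snoc (α := fun _ => V (RatFunc F))
            (fun i : Fin 3 => lg (RatFunc.C (![a, b, e] i))) (lg (RatFunc.X - RatFunc.C p))) =
            ![lg (RatFunc.C a), lg (RatFunc.C b), lg (RatFunc.C e), E p] := by
          funext i
          fin_cases i <;> rfl
        rw [← e1, ← h]
        exact fm _ _
    have hsy : ∀ x k l, χ (cl1 x) (cl x) k l = 0 := by
      intro x k l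
      rw [hχA, hA]
      have h := hd.two 2 x (pr (RatFunc F) 2 ![k, l])
      rw [wdg_pr, wdg_pr] at h
      have e1 : (Fin.cons (cl1 x) (Fin.cons (cl x) ![k, l] : Fin 3 → V (RatFunc F)) :
          Fin 4 → V (RatFunc F)) = ![cl1 x, cl x, k, l] := rfl
      rw [e1] at h
      rw [← h]
      exact fd _
    have h0 : χ = 0 := hY4 χ hχ hk hsy
    apply hf1
    have hg : g = 0 := by
      apply wext
      intro v
      have h1 : g (pr (RatFunc F) 4 v) = A v := rfl
      have h2 : v = ![v 0, v 1, v 2, v 3] := by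
        funext i
        fin_cases i <;> rfl
      rw [h1, LinearMap.zero_apply, h2, ← hχA, h0]
      rfl
    exact LinearMap.congr_fun hg w
  rw [hS, Submodule.mem_sup] at hmem
  obtain ⟨y, hy, z, hz, e⟩ := hmem
  obtain ⟨w', rfl⟩ := hz
  refine ⟨w', ?_⟩
  rw [← e, add_sub_cancel_right]
  exact hy

end

end Pool.Agent.Helper19.HV
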