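import Pool.Agent.Helper19.HV.StC

/-!
# Project HV, module REL: assembly of the relations
-/

set_option autoImplicit false

open scoped TensorProduct

namespace Pool.Agent.Helper19.HV

noncomputable section

open PL

theorem mREL : sDDZ → sDCM → sREX → sRRD → sRCM → sPRS → sREL := by
  intro hDDZ hDCM hREX hRRD hRCM hPRS F _ X hX hρ d d' r c m hd hd' hr hc hm
  have hE := (hREX F X hX).2 r hr
  have hci := hPRS F c m hρ hc hm
  have hdcm := hDCM F d d' c m hd hd' hc hm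
  have pts : ∀ x : X, ∃ (a : F) (ha : some a ∈ X), x = ⟨some a, ha⟩ := by
    rintro ⟨x, hx⟩
    rcases x with _ | a
    · exact absurd hx hX
    · exact ⟨a, hx, rfl⟩
  constructor
  · exact hDDZ _ d hd
  · exact hDDZ _ d' hd'
  · exact hdcm.1
  · exact hdcm.2
  · intro k j w x
    obtain ⟨a, ha, rfl⟩ := pts x
    obtain ⟨ρ, hρ1, hρ2⟩ := hE a ha
    rw [hρ2, hρ2]
    exact (hRRD F a ρ d d' hρ1 hd hd').1 k j w
  · intro k w x
    obtain ⟨a, ha, rfl⟩ := pts x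
    obtain ⟨ρ, hρ1, hρ2⟩ := hE a ha
    rw [hρ2]
    exact (hRRD F a ρ d d' hρ1 hd hd').2 k w
  · intro k j z x
    obtain ⟨a, ha, rfl⟩ := pts x
    obtain ⟨ρ, hρ1, hρ2⟩ := hE a ha
    rw [hρ2]
    exact (hRCM F a ρ c m hρ1 hc hm).1 k j z
  · intro a ha k j y
    obtain ⟨ρ, hρ1, hρ2⟩ := hE a ha
    rw [hρ2]
    exact (hRCM F a ρ c m hρ1 hc hm).2.1 k j y
  · intro a b hb hab k j y
    obtain ⟨ρ, hρ1, hρ2⟩ := hE b hb
    rw [hρ2]
    exact (hRCM F b ρ c m hρ1 hc hm).2.2 a hab k j y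
  · exact hci.1
  · exact hci.2

end

end Pool.Agent.Helper19.HV
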